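import Pool.Agent.R12.Ladder

set_option autoImplicit false

/-!
# Super edge-magic ladders of even length

For even `n ≥ 2` the ladder `L_n = P_n □ P_2` is super edge-magic if and only if `n ≥ 4`.
-/

namespace Pool.Agent.Results.MP_4fbecc_co.EvenLadders

open Pool.Agent.R12.SEM

/-- For even `n ≥ 2`, the ladder `L_n = P_n □ P_2` is super edge-magic if and only if `n ≥ 4`. -/
theorem result : ∀ n : ℕ, 2 ≤ n → Even n →
    (SuperEdgeMagic (SimpleGraph.pathGraph n □ SimpleGraph.pathGraph 2) ↔ 4 ≤ n) := by
  intro n h2 he
  constructor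
  · intro h
    by_contra hc
    have h3 := Nat.even_iff.1 he
    obtain rfl : n = 2 := by omega
    exact Pool.Agent.R12.Ladder.not_ladder_two h
  · intro h
    exact Pool.Agent.R12.Ladder.ladder_even n h he

end Pool.Agent.Results.MP_4fbecc_co.EvenLadders
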